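import Pool.Agent.H27.HB.TA

/-!
# MP_8352e3_an: module CLA (linear combinations)
-/

set_option autoImplicit false

namespace Pool.Agent.H11.HB
open MeasureTheory Set Filter Topology Pool.Agent.H80.HS Pool.Agent.H93.HQ Pool.Agent.H27.HB
open scoped ContDiff ENNReal

instance haar2' (n : ℕ) : (volume : Measure (V n × ℝ)).IsAddHaarMeasure :=
  inferInstanceAs ((volume : Measure (V n)).prod (volume : Measure ℝ)).IsAddHaarMeasure

instance haar3' (n : ℕ) : (volume : Measure (H n)).IsAddHaarMeasure :=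
  Measure.prod.instIsAddHaarMeasure (volume : Measure (V n)) (volume : Measure (V n × ℝ))

theorem hg_cont {n : ℕ} {φ : H n → ℝ} (h : Tst φ) : Continuous (hg φ) := by
  have h1 : Continuous (fderiv ℝ φ) := h.1.continuous_fderiv (by simp)
  refine (PiLp.continuous_toLp 2 _).comp (continuous_pi fun i => ?_)
  rcases i with j | j
  · show Continuous fun z => X φ j z
    exact h1.clm_apply (by fun_prop)
  · show Continuous fun z => Y φ j z
    exact h1.clm_apply (by fun_prop)

theorem hg_supp {n : ℕ} {φ : H n → ℝ} (h : Tst φ) : HasCompactSupport (hg φ) := by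
  refine HasCompactSupport.intro (K := tsupport φ) h.2 fun z hz => ?_
  have h1 : fderiv ℝ φ z = 0 := by
    have h2 : φ =ᶠ[𝓝 z] 0 := notMem_tsupport_iff_eventuallyEq.mp hz
    rw [h2.fderiv_eq]
    simp
  ext i
  rcases i with j | j
  · show X φ j z = 0
    unfold X
    rw [h1]
    rfl
  · show Y φ j z = 0
    unfold Y
    rw [h1]
    rfl

theorem rpow_add_le {x y q : ℝ} (hx : 0 ≤ x) (hy : 0 ≤ y) (hq : 0 < q) :
    (x + y) ^ q ≤ 2 ^ q * (x ^ q + y ^ q) := by
  have key : ∀ {x y : ℝ}, 0 ≤ x → 0 ≤ y → x ≤ y → (x + y) ^ q ≤ 2 ^ q * (x ^ q + y ^ q) := by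
    intro x y hx hy hxy
    have h1 : (x + y) ^ q ≤ (2 * y) ^ q :=
      Real.rpow_le_rpow (by positivity) (by linarith) hq.le
    rw [Real.mul_rpow (by norm_num) hy] at h1
    have h2 : (0 : ℝ) ≤ 2 ^ q := by positivity
    have h3 : 0 ≤ x ^ q := Real.rpow_nonneg hx q
    nlinarith
  rcases le_total x y with h | h
  · exact key hx hy h
  · rw [add_comm x y, add_comm (x ^ q)]
    exact key hy hx h

/-- the norms of linear combinations -/
theorem comb_tendsto {n : ℕ} {E : Type} [NormedAddCommGroup E] [NormedSpace ℝ E] {q : ℝ}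
    (hq : 0 < q) {f g : ℕ → H n → E} (hf : ∀ k, MemLp (f k) (ENNReal.ofReal q))
    (hg : ∀ k, MemLp (g k) (ENNReal.ofReal q)) (a b : ℝ)
    (h1 : Tendsto (fun k => ∫ z, ‖f k z‖ ^ q) atTop (𝓝 0))
    (h2 : Tendsto (fun k => ∫ z, ‖g k z‖ ^ q) atTop (𝓝 0)) :
    Tendsto (fun k => ∫ z, ‖a • f k z + b • g k z‖ ^ q) atTop (𝓝 0) := by
  have hint : ∀ {u : H n → E}, MemLp u (ENNReal.ofReal q) → Integrable fun z => ‖u z‖ ^ q := by
    intro u hu
    have := hu.integrable_norm_rpow (by simpa using hq) ENNReal.ofReal_ne_top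
    rwa [ENNReal.toReal_ofReal hq.le] at this
  have hlim : Tendsto (fun k => 2 ^ q * (|a| ^ q * (∫ z, ‖f k z‖ ^ q) +
      |b| ^ q * ∫ z, ‖g k z‖ ^ q)) atTop (𝓝 0) := by
    have := (((h1.const_mul (|a| ^ q)).add (h2.const_mul (|b| ^ q))).const_mul (2 ^ q))
    simpa using this
  refine squeeze_zero (fun k => integral_nonneg fun z => by positivity) (fun k => ?_) hlim
  rw [← integral_const_mul, ← integral_const_mul, ← integral_add ((hint (hf k)).const_mul _)
    ((hint (hg k)).const_mul _), ← integral_const_mul]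
  refine integral_mono_of_nonneg (ae_of_all _ fun z => by positivity)
    ((((hint (hf k)).const_mul _).add ((hint (hg k)).const_mul _)).const_mul _)
    (ae_of_all _ fun z => ?_)
  have e1 : ‖a • f k z + b • g k z‖ ^ q ≤ (|a| * ‖f k z‖ + |b| * ‖g k z‖) ^ q := by
    apply Real.rpow_le_rpow (norm_nonneg _) _ hq.le
    refine (norm_add_le _ _).trans ?_
    rw [norm_smul, norm_smul, Real.norm_eq_abs, Real.norm_eq_abs]
  refine e1.trans ((rpow_add_le (by positivity) (by positivity) hq).trans ?_)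
  rw [Real.mul_rpow (abs_nonneg a) (norm_nonneg _), Real.mul_rpow (abs_nonneg b) (norm_nonneg _)]

theorem pf_CLA (hHGA : T_HGA) : T_CLA := by
  intro n hn p hp hpQ u v g h a b hu hv
  obtain ⟨hu1, hu2, φ, hφ, hφ1, hφ2⟩ := hu
  obtain ⟨hv1, hv2, ψ, hψ, hψ1, hψ2⟩ := hv
  have hp0 : 0 < p := by linarith
  have hq0 : 0 < ps n p := by
    unfold ps
    have h1 : (0 : ℝ) < 2 * n + 2 - p := by linarith
    positivity
  have htst : ∀ {χ : H n → ℝ}, Tst χ → ∀ q : ℝ, MemLp χ (ENNReal.ofReal q) := fun h q =>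
    h.1.continuous.memLp_of_hasCompactSupport h.2
  have htst2 : ∀ {χ : H n → ℝ}, Tst χ → ∀ q : ℝ, MemLp (hg χ) (ENNReal.ofReal q) := fun h q =>
    (hg_cont h).memLp_of_hasCompactSupport (hg_supp h)
  have hd : ∀ {χ : H n → ℝ}, Tst χ → Differentiable ℝ χ := fun h => h.1.differentiable (by simp)
  refine ⟨(hu1.const_mul a).add (hv1.const_mul b), (hu2.const_smul a).add (hv2.const_smul b),
    fun k z => a * φ k z + b * ψ k z, fun k => ⟨?_, ?_⟩, ?_, ?_⟩
  · exact (contDiff_const.mul (hφ k).1).add (contDiff_const.mul (hψ k).1)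
  · exact ((hφ k).2.mul_left).add ((hψ k).2.mul_left)
  · have key := comb_tendsto hq0 (f := fun k z => φ k z - u z) (g := fun k z => ψ k z - v z)
      (fun k => (htst (hφ k) _).sub hu1) (fun k => (htst (hψ k) _).sub hv1) a b hφ1 hψ1
    refine key.congr fun k => ?_
    unfold ms
    congr 1
    ext z
    rw [Real.norm_eq_abs]
    congr 2
    simp only [smul_eq_mul]
    ring
  · have key := comb_tendsto hp0 (f := fun k z => hg (φ k) z - g z)
      (g := fun k z => hg (ψ k) z - h z)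
      (fun k => (htst2 (hφ k) _).sub hu2) (fun k => (htst2 (hψ k) _).sub hv2) a b hφ2 hψ2
    refine key.congr fun k => ?_
    unfold en
    congr 1
    ext z
    congr 2
    show _ = hg (fun x => a * φ k x + b * ψ k x) z - (a • g z + b • h z)
    rw [(hHGA n (φ k) (ψ k) z (hd (hφ k) z) (hd (hψ k) z)).1 a b, smul_sub, smul_sub]
    abel

end Pool.Agent.H11.HB
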