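import Pool.Agent.H27.HB.TA
import Pool.Agent.H27.HB.TX

/-!
# MP_8352e3_an: row GRU (the gradient of the Jerison-Lee function)
-/

set_option autoImplicit false

namespace Pool.Agent.H11.HB
open MeasureTheory Set Filter Topology Pool.Agent.H80.HS Pool.Agent.H93.HQ Pool.Agent.H27.HB
open scoped ContDiff ENNReal

theorem ww_pos {n : ℕ} (z : H n) : 0 < ww z := by
  have := sq_nonneg' z
  unfold ww
  positivity

theorem ww_smooth {n : ℕ} : ContDiff ℝ ∞ (fun z : H n => ww z) := by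
  have h1 : ContDiff ℝ ∞ (fun z : H n => Pool.Agent.H93.HQ.sq z) := by
    unfold Pool.Agent.H93.HQ.sq
    have h2 : ContDiff ℝ ∞ (fun z : H n => ‖z.1‖ ^ 2) := contDiff_fst.norm_sq ℝ
    have h3 : ContDiff ℝ ∞ (fun z : H n => ‖z.2.1‖ ^ 2) :=
      (contDiff_fst.comp contDiff_snd).norm_sq ℝ
    exact h2.add h3
  unfold ww
  exact ((contDiff_const.add h1).pow 2).add ((contDiff_snd.comp contDiff_snd).pow 2)

theorem fderiv_ww {n : ℕ} (z v : H n) : fderiv ℝ (fun z : H n => ww z) z v =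
    2 * (1 + Pool.Agent.H93.HQ.sq z) * (2 * inner ℝ z.1 v.1 + 2 * inner ℝ z.2.1 v.2.1) +
      2 * z.2.2 * v.2.2 := by
  have h1 : HasFDerivAt (fun z : H n => ‖z.1‖ ^ 2)
      ((2 • innerSL ℝ z.1).comp (ContinuousLinearMap.fst ℝ (V n) (V n × ℝ))) z :=
    (hasStrictFDerivAt_norm_sq z.1).hasFDerivAt.comp z hasFDerivAt_fst
  have h2 : HasFDerivAt (fun z : H n => ‖z.2.1‖ ^ 2)
      ((2 • innerSL ℝ z.2.1).comp ((ContinuousLinearMap.fst ℝ (V n) ℝ).comp
        (ContinuousLinearMap.snd ℝ (V n) (V n × ℝ)))) z := by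
    have h0 : HasFDerivAt (fun z : H n => z.2.1) ((ContinuousLinearMap.fst ℝ (V n) ℝ).comp
        (ContinuousLinearMap.snd ℝ (V n) (V n × ℝ))) z := hasFDerivAt_fst.comp z hasFDerivAt_snd
    exact HasFDerivAt.comp (g := fun w : V n => ‖w‖ ^ 2) z
      (hasStrictFDerivAt_norm_sq z.2.1).hasFDerivAt h0
  have h3 : HasFDerivAt (fun z : H n => z.2.2)
      ((ContinuousLinearMap.snd ℝ (V n) ℝ).comp
        (ContinuousLinearMap.snd ℝ (V n) (V n × ℝ))) z :=
    hasFDerivAt_snd.comp z hasFDerivAt_snd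
  have h4 := (((h1.add h2).const_add 1).pow 2).add (h3.pow 2)
  have h5 : (fun z : H n => ww z) = fun z : H n =>
      (1 + (‖z.1‖ ^ 2 + ‖z.2.1‖ ^ 2)) ^ 2 + z.2.2 ^ 2 := rfl
  rw [h5]
  have h6 := h4.fderiv
  have h7 := congrArg (fun L : H n →L[ℝ] ℝ => L v) h6
  refine Eq.trans h7 ?_
  simp [Pool.Agent.H93.HQ.sq]
  ring

theorem X_ww {n : ℕ} (z : H n) (j : Fin n) : X (fun z : H n => ww z) j z =
    4 * (1 + Pool.Agent.H93.HQ.sq z) * z.1 j + 4 * z.2.2 * z.2.1 j := by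
  unfold X
  rw [fderiv_ww, EuclideanSpace.inner_single_right]
  simp
  ring

theorem Y_ww {n : ℕ} (z : H n) (j : Fin n) : Y (fun z : H n => ww z) j z =
    4 * (1 + Pool.Agent.H93.HQ.sq z) * z.2.1 j - 4 * z.2.2 * z.1 j := by
  unfold Y
  rw [fderiv_ww, EuclideanSpace.inner_single_right]
  simp
  ring

theorem grad_ww {n : ℕ} (z : H n) : grad (fun z : H n => ww z) z =
    4 * Real.sqrt (ww z) * mz z := by
  unfold grad
  have h1 : ∑ j, (‖X (fun z : H n => ww z) j z‖ ^ 2 + ‖Y (fun z : H n => ww z) j z‖ ^ 2) =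
      (4 * Real.sqrt (ww z) * mz z) ^ 2 := by
    have h2 : ∀ j, ‖X (fun z : H n => ww z) j z‖ ^ 2 + ‖Y (fun z : H n => ww z) j z‖ ^ 2 =
        16 * ww z * (z.1 j ^ 2 + z.2.1 j ^ 2) := by
      intro j
      rw [X_ww, Y_ww, Real.norm_eq_abs, Real.norm_eq_abs, sq_abs, sq_abs]
      unfold ww
      ring
    rw [Finset.sum_congr rfl fun j _ => h2 j, ← Finset.mul_sum, Finset.sum_add_distrib]
    have h3 : ∑ j, z.1 j ^ 2 + ∑ j, z.2.1 j ^ 2 = Pool.Agent.H93.HQ.sq z := by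
      unfold Pool.Agent.H93.HQ.sq
      rw [EuclideanSpace.norm_sq_eq, EuclideanSpace.norm_sq_eq]
      simp
    rw [h3, mul_pow, mul_pow, Real.sq_sqrt (ww_pos z).le, mz_sq]
    ring
  rw [h1, Real.sqrt_sq]
  have := mz_nonneg z
  positivity

theorem pf_GRU (hHGA : T_HGA) : T_GRU := by
  intro n z
  have hw := ww_pos z
  refine ⟨?_, ?_⟩
  · unfold u0
    exact ww_smooth.rpow_const_of_ne fun z => (ww_pos z).ne'
  · have hd : DifferentiableAt ℝ (fun z : H n => ww z) z :=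
      (ww_smooth (n := n)).differentiable (by simp) z
    obtain ⟨-, -, h3, h4⟩ := hHGA n (fun z : H n => ww z) (fun z : H n => ww z) z hd hd
    have h5 := h3 (fun s => s ^ (-(n : ℝ) / 2)) (-(n : ℝ) / 2 * ww z ^ (-(n : ℝ) / 2 - 1))
      (by
        have h := Real.hasDerivAt_rpow_const (x := ww z) (p := -(n : ℝ) / 2) (Or.inl hw.ne')
        exact h)
    have h6 : hg (u0 n) z = (-(n : ℝ) / 2 * ww z ^ (-(n : ℝ) / 2 - 1)) •
        hg (fun z : H n => ww z) z := h5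
    rw [h6, norm_smul, h4, grad_ww, Real.norm_eq_abs, abs_mul, abs_div, abs_neg,
      abs_of_nonneg (Nat.cast_nonneg n : (0 : ℝ) ≤ n), abs_of_pos (by norm_num : (0 : ℝ) < 2),
      abs_of_pos (Real.rpow_pos_of_pos hw _), Real.sqrt_eq_rpow]
    have h7 : ww z ^ (-((n : ℝ) + 1) / 2) = ww z ^ (-(n : ℝ) / 2 - 1) * ww z ^ (1 / 2 : ℝ) := by
      rw [← Real.rpow_add hw]
      congr 1
      ring
    rw [h7]
    ring

end Pool.Agent.H11.HB
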