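import Pool.Agent.H27.HB.TA

/-!
# MP_8352e3_an: module IBP (integration by parts)
-/

set_option autoImplicit false

namespace Pool.Agent.H11.HB
open MeasureTheory Set Filter Topology Pool.Agent.H80.HS Pool.Agent.H93.HQ Pool.Agent.H27.HB
open scoped ContDiff ENNReal

instance haar2 (n : ℕ) : (volume : Measure (V n × ℝ)).IsAddHaarMeasure :=
  inferInstanceAs ((volume : Measure (V n)).prod (volume : Measure ℝ)).IsAddHaarMeasure

instance haar3 (n : ℕ) : (volume : Measure (H n)).IsAddHaarMeasure :=
  Measure.prod.instIsAddHaarMeasure (volume : Measure (V n)) (volume : Measure (V n × ℝ))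

/-- the integral of a derivative in a constant direction -/
theorem int_const {n : ℕ} {Ψ : H n → ℂ} (h : ContDiff ℝ 1 Ψ) (hc : HasCompactSupport Ψ)
    (v : H n) : ∫ z, fderiv ℝ Ψ z v = 0 := by
  have hcont : Continuous fun z => fderiv ℝ Ψ z v :=
    (h.continuous_fderiv (by norm_num)).clm_apply continuous_const
  have hcs : HasCompactSupport fun z => fderiv ℝ Ψ z v := hc.fderiv_apply ℝ v
  have hint := hcont.integrable_of_hasCompactSupport hcs (μ := (volume : Measure (H n)))
  have hint2 := h.continuous.integrable_of_hasCompactSupport hc (μ := (volume : Measure (H n)))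
  have key := integral_mul_fderiv_eq_neg_fderiv_mul_of_integrable
    (μ := (volume : Measure (H n))) (f := fun _ : H n => (1 : ℂ)) (g := Ψ) (v := v)
    (by simp) (by simpa using hint) (by simpa using hint2) (fun x _ => by fun_prop)
    (fun x _ => h.differentiable (by norm_num) x)
  simpa using key

/-- the integral of a derivative in the direction `a + ℓ(z) b` with `ℓ(b) = 0` -/
theorem int_dir {n : ℕ} {Ψ : H n → ℂ} (h : ContDiff ℝ 1 Ψ) (hc : HasCompactSupport Ψ)
    (a b : H n) (l : H n →L[ℝ] ℝ) (hl : l b = 0) : ∫ z, fderiv ℝ Ψ z (a + l z • b) = 0 := by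
  have h2 : ContDiff ℝ 1 fun z => l z • Ψ z := ContDiff.smul l.contDiff h
  have hc2 : HasCompactSupport fun z => l z • Ψ z := hc.mono' fun z hz => by
    apply subset_tsupport
    intro h
    apply hz
    show l z • Ψ z = 0
    rw [h, smul_zero]
  have e : ∀ z, fderiv ℝ Ψ z (a + l z • b) =
      fderiv ℝ Ψ z a + fderiv ℝ (fun z => l z • Ψ z) z b := by
    intro z
    have h3 : HasFDerivAt (fun z => l z • Ψ z) (l z • fderiv ℝ Ψ z + l.smulRight (Ψ z)) z :=
      l.hasFDerivAt.smul ((h.differentiable (by norm_num) z).hasFDerivAt)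
    rw [h3.fderiv, map_add, map_smul, add_apply, smul_apply, ContinuousLinearMap.smulRight_apply,
      hl, zero_smul, add_zero]
  have i1 : Integrable (fun z => fderiv ℝ Ψ z a) (volume : Measure (H n)) :=
    ((h.continuous_fderiv (by norm_num)).clm_apply
      continuous_const).integrable_of_hasCompactSupport (hc.fderiv_apply ℝ a)
  have i2 : Integrable (fun z => fderiv ℝ (fun z => l z • Ψ z) z b) (volume : Measure (H n)) :=
    ((h2.continuous_fderiv (by norm_num)).clm_apply
      continuous_const).integrable_of_hasCompactSupport (hc2.fderiv_apply ℝ b)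
  simp_rw [e]
  rw [integral_add i1 i2, int_const h hc, int_const h2 hc2, add_zero]

theorem parts {n : ℕ} {φ : H n → ℝ} {F : H n → ℂ} (hφ : Tst φ) (hF : ContDiff ℝ 1 F)
    (a b : H n) (l : H n →L[ℝ] ℝ) (hl : l b = 0) :
    ∫ z, ((fderiv ℝ φ z (a + l z • b) : ℝ) : ℂ) * F z =
      -∫ z, ((φ z : ℝ) : ℂ) * fderiv ℝ F z (a + l z • b) := by
  have hφ1 : ContDiff ℝ 1 φ := hφ.1.of_le (by norm_cast)
  have hΨ : ContDiff ℝ 1 fun z => φ z • F z := hφ1.smul hF
  have hcΨ : HasCompactSupport fun z => φ z • F z := hφ.2.mono' fun z hz => by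
    apply subset_tsupport
    intro h
    apply hz
    show φ z • F z = 0
    rw [h, zero_smul]
  have hv : Continuous fun z : H n => a + l z • b := by fun_prop
  have e : ∀ z, fderiv ℝ (fun z => φ z • F z) z (a + l z • b) =
      ((fderiv ℝ φ z (a + l z • b) : ℝ) : ℂ) * F z +
        ((φ z : ℝ) : ℂ) * fderiv ℝ F z (a + l z • b) := by
    intro z
    have h3 : HasFDerivAt (fun z => φ z • F z)
        (φ z • fderiv ℝ F z + (fderiv ℝ φ z).smulRight (F z)) z :=
      ((hφ1.differentiable (by norm_num) z).hasFDerivAt).smul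
        ((hF.differentiable (by norm_num) z).hasFDerivAt)
    rw [h3.fderiv]
    simp only [add_apply, smul_apply, ContinuousLinearMap.smulRight_apply, Complex.real_smul]
    ring
  have c1 : Continuous fun z => ((fderiv ℝ φ z (a + l z • b) : ℝ) : ℂ) * F z :=
    (Complex.continuous_ofReal.comp ((hφ1.continuous_fderiv (by norm_num)).clm_apply hv)).mul
      hF.continuous
  have c2 : Continuous fun z => ((φ z : ℝ) : ℂ) * fderiv ℝ F z (a + l z • b) :=
    (Complex.continuous_ofReal.comp hφ1.continuous).mul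
      ((hF.continuous_fderiv (by norm_num)).clm_apply hv)
  have s1 : HasCompactSupport fun z => ((fderiv ℝ φ z (a + l z • b) : ℝ) : ℂ) * F z := by
    refine HasCompactSupport.intro (K := tsupport φ) hφ.2 fun z hz => ?_
    have : fderiv ℝ φ z = 0 := by
      have h1 : φ =ᶠ[𝓝 z] 0 := notMem_tsupport_iff_eventuallyEq.mp hz
      rw [h1.fderiv_eq]
      simp
    simp [this]
  have s2 : HasCompactSupport fun z => ((φ z : ℝ) : ℂ) * fderiv ℝ F z (a + l z • b) := by
    refine HasCompactSupport.intro (K := tsupport φ) hφ.2 fun z hz => ?_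
    simp [image_eq_zero_of_notMem_tsupport hz]
  have i1 := c1.integrable_of_hasCompactSupport s1 (μ := (volume : Measure (H n)))
  have i2 := c2.integrable_of_hasCompactSupport s2 (μ := (volume : Measure (H n)))
  have key := int_dir hΨ hcΨ a b l hl
  simp_rw [e] at key
  rw [integral_add i1 i2] at key
  exact eq_neg_of_add_eq_zero_left key

theorem pf_IBP : T_IBP := by
  intro n φ F j hφ hF
  constructor
  · let l : H n →L[ℝ] ℝ := (2 : ℝ) • ((EuclideanSpace.proj j : V n →L[ℝ] ℝ).comp
      ((ContinuousLinearMap.fst ℝ (V n) ℝ).comp (ContinuousLinearMap.snd ℝ (V n) (V n × ℝ))))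
    have hl : ∀ z : H n, l z = 2 * z.2.1 j := fun z => rfl
    have key := parts hφ hF (EuclideanSpace.single j (1 : ℝ), 0, 0) (0, 0, 1) l
      (by rw [hl]; simp)
    have e : ∀ z : H n, ((EuclideanSpace.single j (1 : ℝ), 0, 0) + l z • (0, 0, 1) : H n) =
        (EuclideanSpace.single j (1 : ℝ), 0, 2 * z.2.1 j) := by
      intro z
      rw [hl]
      ext <;> simp
    simp_rw [e] at key
    exact key
  · let l : H n →L[ℝ] ℝ := (-2 : ℝ) • ((EuclideanSpace.proj j : V n →L[ℝ] ℝ).comp
      (ContinuousLinearMap.fst ℝ (V n) (V n × ℝ)))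
    have hl : ∀ z : H n, l z = -2 * z.1 j := fun z => rfl
    have key := parts hφ hF (0, EuclideanSpace.single j (1 : ℝ), 0) (0, 0, 1) l
      (by rw [hl]; simp)
    have e : ∀ z : H n, ((0, EuclideanSpace.single j (1 : ℝ), 0) + l z • (0, 0, 1) : H n) =
        (0, EuclideanSpace.single j (1 : ℝ), -2 * z.1 j) := by
      intro z
      rw [hl]
      ext <;> simp
    simp_rw [e] at key
    exact key

end Pool.Agent.H11.HB
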