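import Pool.Agent.H27.HB.TA
import Pool.Agent.H27.HB.TD

/-!
# MP_8352e3_an: module MIN (centred minimising sequences)
-/

set_option autoImplicit false

namespace Pool.Agent.H11.HB
open MeasureTheory Set Filter Topology Pool.Agent.H80.HS Pool.Agent.H93.HQ Pool.Agent.H27.HB
open scoped ContDiff ENNReal

theorem pf_MIN (hTQ : T_TQ) (hCNT : T_CNT) (hACT : T_ACT) (hACV : T_ACV) (hCLT : T_CLT) :
    T_MIN := by
  intro n hn p S hp hpQ hS
  have key : ∀ k : ℕ, ∃ φ : H n → ℝ, Near p S (1 / ((k : ℝ) + 1)) φ ∧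
      Cen (fun z => |φ z| ^ ps n p) := by
    intro k
    obtain ⟨ψ, hψ, hψ1, hψ2⟩ := (hTQ n hn p S hp hpQ hS).2 (1 / ((k : ℝ) + 1)) (by positivity)
    obtain ⟨a, r, hr, hc⟩ := hCNT n hn p hp hpQ ψ (hCLT n hn p hp hpQ ψ hψ).1
      (by rw [hψ1]; exact one_pos)
    obtain ⟨h1, h2⟩ := hACT n hn p hp hpQ a r hr ψ hψ
    obtain ⟨-, -, h3, -, h4, -, -⟩ := hACV n hn p hp hpQ a r hr
    refine ⟨act p a r ψ, ⟨h1, ?_, ?_⟩, hc⟩
    · rw [h3, hψ1]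
    · rw [h2, h4]
      exact hψ2.le
  choose φ hφ using key
  exact ⟨φ, hφ⟩

end Pool.Agent.H11.HB
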