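import Pool.Agent.H27.HB.TD

/-!
# MP_8352e3_an: module MO1 (regularity of mollifications)
-/

set_option autoImplicit false

namespace Pool.Agent.H11.HB
open MeasureTheory Set Filter Topology Pool.Agent.H80.HS Pool.Agent.H93.HQ Pool.Agent.H27.HB
open scoped ContDiff ENNReal Convolution

theorem MO1_haar2 (n : ℕ) : (volume : Measure (V n × ℝ)).IsAddHaarMeasure :=
  inferInstanceAs ((volume : Measure (V n)).prod (volume : Measure ℝ)).IsAddHaarMeasure

theorem MO1_haar3 (n : ℕ) : (volume : Measure (H n)).IsAddHaarMeasure :=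
  have := MO1_haar2 n
  Measure.prod.instIsAddHaarMeasure (volume : Measure (V n)) (volume : Measure (V n × ℝ))

/-- `y⁻¹ (y z) = z` -/
theorem mul_neg_mul {n : ℕ} (y z : H n) : mul (-y) (mul y z) = z := by
  unfold mul
  have h1 : inner ℝ y.2.1 y.1 = (inner ℝ y.1 y.2.1 : ℝ) := real_inner_comm _ _
  refine Prod.ext ?_ (Prod.ext ?_ ?_)
  · simp
  · simp
  · simp only [Prod.fst_neg, Prod.snd_neg, inner_neg_left, inner_add_right, h1]
    ring

/-- `z (y⁻¹ z)⁻¹ = y` -/
theorem mul_neg_inv {n : ℕ} (y z : H n) : mul z (-(mul (-y) z)) = y := by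
  unfold mul
  have h1 : inner ℝ z.2.1 z.1 = (inner ℝ z.1 z.2.1 : ℝ) := real_inner_comm _ _
  have h2 : inner ℝ z.2.1 y.1 = (inner ℝ y.1 z.2.1 : ℝ) := real_inner_comm _ _
  have h3 : inner ℝ y.2.1 z.1 = (inner ℝ z.1 y.2.1 : ℝ) := real_inner_comm _ _
  refine Prod.ext ?_ (Prod.ext ?_ ?_)
  · simp
  · simp
  · simp only [Prod.fst_neg, Prod.snd_neg, inner_neg_left, inner_neg_right, inner_add_right, h1,
      h2, h3]
    ring

theorem mul_contDiff {n : ℕ} : ContDiff ℝ ∞ fun q : H n × H n => mul q.1 q.2 := by
  unfold mul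
  have a1 : ContDiff ℝ ∞ fun q : H n × H n => q.1.1 := by fun_prop
  have a2 : ContDiff ℝ ∞ fun q : H n × H n => q.1.2.1 := by fun_prop
  have a3 : ContDiff ℝ ∞ fun q : H n × H n => q.1.2.2 := by fun_prop
  have b1 : ContDiff ℝ ∞ fun q : H n × H n => q.2.1 := by fun_prop
  have b2 : ContDiff ℝ ∞ fun q : H n × H n => q.2.2.1 := by fun_prop
  have b3 : ContDiff ℝ ∞ fun q : H n × H n => q.2.2.2 := by fun_prop
  exact (a1.add b1).prodMk ((a2.add b2).prodMk ((a3.add b3).add
    (contDiff_const.mul ((a2.inner ℝ b1).sub (a1.inner ℝ b2)))))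

/-- the translation-inversion -/
theorem mp_inv (hTR : U_TR) {n : ℕ} (z : H n) :
    MeasurePreserving (fun y : H n => mul (-y) z) volume volume := by
  have := MO1_haar3 n
  have hc : Continuous fun x : H n => mul x z :=
    continuous_mul'.comp (continuous_id.prodMk continuous_const)
  have h1 : MeasurePreserving (fun x : H n => mul x z) volume volume := by
    refine ⟨hc.measurable, ?_⟩
    ext s hs
    rw [Measure.map_apply hc.measurable hs]
    have h2 := (hTR n (s.indicator fun _ => 1) z (measurable_const.indicator hs)).2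
    rw [lintegral_indicator_const hs] at h2
    have h3 : ∀ x : H n, s.indicator (fun _ => (1 : ℝ≥0∞)) (mul x z) =
        ((fun x => mul x z) ⁻¹' s).indicator (fun _ => (1 : ℝ≥0∞)) x := fun x => rfl
    simp_rw [h3] at h2
    rw [lintegral_indicator_const (hc.measurable hs)] at h2
    simpa using h2
  have h0 : MeasurePreserving (fun x : H n => -x) volume volume := by
    have a1 := Measure.measurePreserving_neg (volume : Measure (V n))
    have a2 := Measure.measurePreserving_neg (volume : Measure ℝ)
    exact a1.prod (a1.prod a2)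
  exact h1.comp h0

theorem mol_eq (hTR : U_TR) {n : ℕ} (η u : H n → ℝ) (z : H n) :
    mol η u z = ∫ x, u x * η (mul z (-x)) := by
  have hcl : Continuous fun y : H n => mul (-y) z :=
    continuous_mul'.comp (continuous_neg.prodMk continuous_const)
  have hcr : Continuous fun x : H n => mul z (-x) := (continuous_mul z).comp continuous_neg
  let e : H n ≃ₜ H n :=
    { toFun := fun y => mul (-y) z
      invFun := fun x => mul z (-x)
      left_inv := fun y => mul_neg_inv y z
      right_inv := fun x => by
        show mul (-(mul z (-x))) z = x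
        have h1 := mul_neg_inv x (-z)
        have h2 : ∀ a b : H n, -(mul a b) = mul (-b) (-a) := by
          intro a b
          unfold mul
          have h3 : inner ℝ b.2.1 a.1 = (inner ℝ a.1 b.2.1 : ℝ) := real_inner_comm _ _
          have h4 : inner ℝ a.2.1 b.1 = (inner ℝ b.1 a.2.1 : ℝ) := real_inner_comm _ _
          refine Prod.ext ?_ (Prod.ext ?_ ?_)
          · simp [add_comm]
          · simp [add_comm]
          · simp only [Prod.fst_neg, Prod.snd_neg, inner_neg_left, inner_neg_right, h3, h4]
            ring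
        rw [h2, neg_neg]
        have h5 : ∀ a b c : H n, mul (mul a b) c = mul a (mul b c) := by
          intro a b c
          unfold mul
          refine Prod.ext ?_ (Prod.ext ?_ ?_)
          · simp [add_assoc]
          · simp [add_assoc]
          · simp only [inner_add_left, inner_add_right]
            ring
        rw [h5, show mul (-z) z = 0 by
          have := mul_neg_mul z 0
          rwa [mul_zero'] at this, mul_zero']
      continuous_toFun := hcl
      continuous_invFun := hcr }
  have h1 := (mp_inv hTR z).integral_comp e.measurableEmbedding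
    (fun x => u x * η (mul z (-x)))
  rw [← h1]
  unfold mol
  congr 1
  ext y
  rw [mul_neg_inv, smul_eq_mul, mul_comm]

theorem pf_MO1 (hTR : U_TR) : T_MO1 := by
  intro n η u hη hu
  have := MO1_haar3 n
  rw [contDiff_iff_contDiffAt]
  intro z0
  let k : Set (H n) := (fun q : H n × H n => mul (-q.1) q.2) ''
    (Metric.closedBall z0 1 ×ˢ tsupport η)
  have hk : IsCompact k := by
    apply ((isCompact_closedBall z0 1).prod hη.2).image
    exact continuous_mul'.comp ((continuous_neg.comp continuous_fst).prodMk continuous_snd)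
  have hgs : ∀ p x : H n, p ∈ Metric.ball z0 1 → x ∉ k → η (mul p x) = 0 := by
    intro p x hp hx
    by_contra h
    apply hx
    refine ⟨(p, mul p x), ⟨Metric.ball_subset_closedBall hp, subset_tsupport _ h⟩, ?_⟩
    exact mul_neg_mul p x
  have hg : ContDiffOn ℝ ((⊤ : ℕ∞) : WithTop ℕ∞)
      (↿(fun p x : H n => η (mul p x))) (Metric.ball z0 1 ×ˢ univ) := by
    have h1 : ContDiff ℝ ∞ fun q : H n × H n => η (mul q.1 q.2) := hη.1.comp mul_contDiff
    exact h1.contDiffOn
  have key := contDiffOn_convolution_right_with_param_comp (n := ⊤) (μ := (volume : Measure (H n)))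
    (ContinuousLinearMap.mul ℝ ℝ) (s := Metric.ball z0 1) (v := fun _ : H n => (0 : H n))
    contDiffOn_const (f := u) (g := fun p x : H n => η (mul p x)) Metric.isOpen_ball hk hgs hu hg
  have h2 : mol η u = fun x => (u ⋆[ContinuousLinearMap.mul ℝ ℝ, volume]
      (fun y => η (mul x y))) (0 : H n) := by
    funext z
    rw [mol_eq hTR, convolution_def]
    simp
  rw [h2]
  exact key.contDiffAt (Metric.isOpen_ball.mem_nhds (Metric.mem_ball_self one_pos))

end Pool.Agent.H11.HB
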