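import Pool.Agent.H27.HB.TD

/-!
# MP_8352e3_an: module NCC (no concentration and tightness)
-/

set_option autoImplicit false

namespace Pool.Agent.H11.HB
open MeasureTheory Set Filter Topology Pool.Agent.H80.HS Pool.Agent.H93.HQ Pool.Agent.H27.HB
open scoped ContDiff ENNReal

theorem NCC_est {n : ℕ} {ρ f : H n → ℝ} (hρ : Integrable ρ) (hρ0 : ∀ z, 0 ≤ ρ z)
    (h1 : ∫ z, ρ z = 1) (hf : Continuous f) (hf1 : ∀ z, |f z| ≤ 1) {t δ η : ℝ} (ht : |t| ≤ 1)
    {A : Set (H n)} (hA : MeasurableSet A) (hδ0 : 0 ≤ δ) (hδ : ∀ z ∈ A, |f z - t| ≤ δ)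
    (hη : ∫ z in Aᶜ, ρ z ≤ η) : |(∫ z, ρ z * f z) - t| ≤ δ + 2 * η := by
  have i1 : Integrable fun z => ρ z * f z := by
    refine hρ.mul_bdd (c := 1) hf.aestronglyMeasurable (ae_of_all _ fun z => ?_)
    exact hf1 z
  have i2 : Integrable (Aᶜ.indicator ρ) := hρ.indicator hA.compl
  have e : (∫ z, ρ z * f z) - t = ∫ z, (ρ z * f z - t * ρ z) := by
    rw [integral_sub i1 (hρ.const_mul t), integral_const_mul, h1, mul_one]
  have hb : Integrable fun z => δ * ρ z + 2 * Aᶜ.indicator ρ z :=
    (hρ.const_mul δ).add (i2.const_mul 2)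
  have h2 : |∫ z, (ρ z * f z - t * ρ z)| ≤ ∫ z, (δ * ρ z + 2 * Aᶜ.indicator ρ z) := by
    rw [← Real.norm_eq_abs]
    refine norm_integral_le_of_norm_le hb (ae_of_all _ fun z => ?_)
    have e2 : ρ z * f z - t * ρ z = ρ z * (f z - t) := by ring
    rw [e2, norm_mul, Real.norm_eq_abs, Real.norm_eq_abs, abs_of_nonneg (hρ0 z)]
    by_cases hz : z ∈ A
    · rw [indicator_of_notMem (by simpa using hz), mul_zero, add_zero, mul_comm]
      exact mul_le_mul_of_nonneg_right (hδ z hz) (hρ0 z)
    · rw [indicator_of_mem (by simpa using hz)]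
      have h3 : |f z - t| ≤ 2 := by
        have := abs_sub (f z) t
        linarith [hf1 z]
      nlinarith [hρ0 z, mul_nonneg hδ0 (hρ0 z)]
  rw [e]
  refine h2.trans ?_
  rw [integral_add (hρ.const_mul δ) (i2.const_mul 2), integral_const_mul, integral_const_mul, h1,
    integral_indicator hA.compl]
  linarith

theorem pf_NCC (hSPB : T_SPB) (hLIP : T_LIP) : T_NCC := by
  intro n hn a b η ha hab hb hη
  obtain ⟨C, hC, hsum, hlip, hinf⟩ := hLIP n
  have hn0 : (0 : ℝ) < (n : ℝ) + 1 := by positivity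
  obtain ⟨κ, hκ⟩ : ∃ κ, κ = kap n := ⟨_, rfl⟩
  have hκ0 : 0 < κ := by
    rw [hκ]
    unfold kap
    positivity
  have hκ1 : κ * (8 * ((n : ℝ) + 1)) = 1 := by
    rw [hκ]
    unfold kap
    field_simp
  have hκ16 : κ * 16 ≤ 1 := by
    have hn1 : (1 : ℝ) ≤ n := by exact_mod_cast hn
    nlinarith
  obtain ⟨η', hη'⟩ : ∃ η', η' = min η (κ / 2) := ⟨_, rfl⟩
  have hη0 : 0 < η' := by
    rw [hη']
    exact lt_min hη (by linarith)
  have hη1 : η' ≤ η := by rw [hη']; exact min_le_left _ _
  have hη2 : η' ≤ κ / 2 := by rw [hη']; exact min_le_right _ _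
  obtain ⟨ε, Λ, hε, hΛ, hS⟩ := hSPB n hn a b η' ha hab hb hη0
  have hΛ0 : 0 < Λ := by linarith
  obtain ⟨r0, hr0⟩ : ∃ r0, r0 = κ / (C * Λ) := ⟨_, rfl⟩
  have hr0p : 0 < r0 := by rw [hr0]; positivity
  have hr0e : C * (Λ * r0) = κ := by
    rw [hr0]
    field_simp
  obtain ⟨r1, hr1⟩ : ∃ r1, r1 = C / κ := ⟨_, rfl⟩
  have hr1p : 0 < r1 := by rw [hr1]; positivity
  have hr1e : r1 * κ = C := by
    rw [hr1]
    field_simp
  refine ⟨ε, r0, Λ * r1, hε, hr0p, fun p S hap hpb hOpt φ hN hcen => ?_⟩
  -- the density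
  obtain ⟨hT, hms, hen⟩ := hN
  have hq0 : 0 < ps n p := by
    unfold ps
    have h1 : (0 : ℝ) < 2 * n + 2 - p := by linarith
    have h2 : 0 < p := by linarith
    positivity
  have hρc : Continuous fun z => |φ z| ^ ps n p :=
    (hT.1.continuous.abs).rpow_const fun _ => Or.inr hq0.le
  have hρs : HasCompactSupport fun z => |φ z| ^ ps n p := by
    refine HasCompactSupport.intro (K := tsupport φ) hT.2 fun z hz => ?_
    rw [image_eq_zero_of_notMem_tsupport hz, abs_zero, Real.zero_rpow hq0.ne']
  have hvol : IsFiniteMeasureOnCompacts (volume : Measure (H n)) := by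
    have h1 : IsFiniteMeasureOnCompacts (volume : Measure (V n × ℝ)) :=
      inferInstanceAs (IsFiniteMeasureOnCompacts ((volume : Measure (V n)).prod volume))
    infer_instance
  have hρ : Integrable (fun z => |φ z| ^ ps n p) :=
    hρc.integrable_of_hasCompactSupport hρs
  have hρ0 : ∀ z, 0 ≤ |φ z| ^ ps n p := fun z => Real.rpow_nonneg (abs_nonneg _) _
  have hρ1 : ∫ z, |φ z| ^ ps n p = 1 := hms
  -- the functions `rz`
  have hN0 : ∀ x : H n, N (mul (-x) x) = 0 := by
    intro x
    have h0 : mul (-x) x = 0 := by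
      unfold mul
      have : inner ℝ x.2.1 x.1 = (inner ℝ x.1 x.2.1 : ℝ) := real_inner_comm _ _
      ext <;> simp [this]
    rw [h0]
    simp [N, N4, Pool.Agent.H93.HQ.sq]
  have hrc : ∀ i b', Continuous fun z : H n => rz i b' z := by
    intro i b'
    rw [continuous_iff_continuousAt]
    intro x
    unfold ContinuousAt
    rw [tendsto_iff_norm_sub_tendsto_zero]
    have h1 : Tendsto (fun y => C * N (mul (-x) y)) (𝓝 x) (𝓝 0) := by
      have h2 : Continuous fun y : H n => C * N (mul (-x) y) :=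
        continuous_const.mul (continuous_N.comp (continuous_mul (-x)))
      have h3 := h2.tendsto x
      simpa [hN0 x] using h3
    refine squeeze_zero (fun y => norm_nonneg _) (fun y => ?_) h1
    rw [Real.norm_eq_abs, abs_sub_comm]
    exact hlip x y i b'
  have hr1' : ∀ i b' (z : H n), |rz i b' z| ≤ 1 := by
    intro i b' z
    have h1 : rz i true z ^ 2 + rz i false z ^ 2 ≤ 1 := by
      rw [← hsum z]
      exact Finset.single_le_sum (f := fun i => rz i true z ^ 2 + rz i false z ^ 2)
        (fun i _ => by positivity) (Finset.mem_univ i)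
    rw [abs_le_one_iff_mul_self_le_one]
    cases b' <;> nlinarith [sq_nonneg (rz i true z), sq_nonneg (rz i false z)]
  constructor
  · intro c
    rcases hS p S hap hpb hOpt φ ⟨hT, hms, hen⟩ c r0 hr0p with h | h
    · exact h.trans hη1
    · exfalso
      have hm : MeasurableSet {z : H n | N (mul c z) ≤ Λ * r0} :=
        (isClosed_le (continuous_N.comp (continuous_mul c)) continuous_const).measurableSet
      have hcompl : {z : H n | N (mul c z) ≤ Λ * r0}ᶜ = {z | Λ * r0 < N (mul c z)} := by
        ext z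
        simp
      have hb3 : ∀ i b', |rz i b' (-c)| ≤ 3 * κ := by
        intro i b'
        have h1 := NCC_est hρ hρ0 hρ1 (hrc i b') (hr1' i b') (t := rz i b' (-c)) (δ := κ)
          (η := η') (hr1' i b' _) hm hκ0.le (fun z hz => by
            rw [abs_sub_comm]
            refine (hlip (-c) z i b').trans ?_
            rw [neg_neg, ← hr0e]
            exact mul_le_mul_of_nonneg_left hz hC.le) (by rw [hcompl]; exact h)
        have h2 := hcen i b'
        rw [← hκ] at h2
        have h3 : |rz i b' (-c)| ≤ |∫ z, |φ z| ^ ps n p * rz i b' z| +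
            |(∫ z, |φ z| ^ ps n p * rz i b' z) - rz i b' (-c)| := by
          have := abs_sub (∫ z, |φ z| ^ ps n p * rz i b' z)
            ((∫ z, |φ z| ^ ps n p * rz i b' z) - rz i b' (-c))
          rwa [sub_sub_cancel] at this
        linarith
      have h4 := hsum (-c)
      have h5 : ∑ i : Option (Fin n), (rz i true (-c) ^ 2 + rz i false (-c) ^ 2) ≤
          ∑ _i : Option (Fin n), 18 * κ ^ 2 := by
        refine Finset.sum_le_sum fun i _ => ?_
        have h6 := sq_le_sq' (abs_le.1 (hb3 i true)).1 (abs_le.1 (hb3 i true)).2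
        have h7 := sq_le_sq' (abs_le.1 (hb3 i false)).1 (abs_le.1 (hb3 i false)).2
        nlinarith
      rw [h4, Finset.sum_const, Finset.card_univ, Fintype.card_option, Fintype.card_fin,
        nsmul_eq_mul] at h5
      push_cast at h5
      nlinarith
  · rcases hS p S hap hpb hOpt φ ⟨hT, hms, hen⟩ 0 r1 hr1p with h | h
    · exfalso
      simp only [zero_mul'] at h
      have hm : MeasurableSet {z : H n | r1 < N z} :=
        (isOpen_lt continuous_const continuous_N).measurableSet
      have hcompl : {z : H n | r1 < N z}ᶜ = {z | N z ≤ r1} := by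
        ext z
        simp
      have h1 := NCC_est hρ hρ0 hρ1 (hrc none true) (hr1' none true) (t := -1) (δ := κ)
        (η := η') (by norm_num) hm hκ0.le (fun z hz => by
          have h2 := (hinf z).1
          rw [sub_neg_eq_add]
          have h3 : r1 < N z := hz
          have h4 : |rz none true z + 1| * r1 ≤ C :=
            (mul_le_mul_of_nonneg_left h3.le (abs_nonneg _)).trans h2
          rw [← hr1e, mul_comm] at h4
          exact le_of_mul_le_mul_left h4 hr1p) (by rw [hcompl]; exact h)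
      have h2 := hcen none true
      rw [← hκ] at h2
      have h3 := abs_le.1 h1
      have h4 := abs_le.1 h2
      linarith [h3.1, h3.2, h4.1, h4.2]
    · simp only [zero_mul'] at h
      exact h.trans hη1

end Pool.Agent.H11.HB
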