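import Pool.Agent.H27.HB.TA
import Pool.Agent.H27.HB.TX

/-!
# MP_8352e3_an: row UCL (the Jerison-Lee function lies in the completion)
-/

set_option autoImplicit false

namespace Pool.Agent.H11.HB
open MeasureTheory Set Filter Topology Pool.Agent.H80.HS Pool.Agent.H93.HQ Pool.Agent.H27.HB
open scoped ContDiff ENNReal

theorem ucl_ww_pos {n : ℕ} (z : H n) : 0 < ww z := by
  have := sq_nonneg' z
  unfold ww
  positivity

theorem ucl_hg_cont {n : ℕ} (u : H n → ℝ) (hu : ContDiff ℝ ∞ u) : Continuous (hg u) := by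
  have hf : Continuous (fderiv ℝ u) := hu.continuous_fderiv (by simp)
  unfold hg
  refine (PiLp.continuous_toLp 2 _).comp (continuous_pi fun i => ?_)
  cases i with
  | inl j =>
    simp only [Sum.elim_inl]
    unfold X
    exact hf.clm_apply (by fun_prop)
  | inr j =>
    simp only [Sum.elim_inr]
    unfold Y
    exact hf.clm_apply (by fun_prop)

theorem JJ_pos {n : ℕ} (hn : 1 ≤ n) (a s : ℝ) (ha : 0 ≤ a) (hs : 0 < 2 * s - 1 - n - a / 2) :
    0 < JJ n a s := by
  have hn' : (1 : ℝ) ≤ n := by exact_mod_cast hn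
  unfold JJ
  have h1 : 0 < Real.Gamma (s - 1 / 2) := Real.Gamma_pos_of_pos (by linarith)
  have h2 : 0 < Real.Gamma s := Real.Gamma_pos_of_pos (by linarith)
  have h3 : 0 < Real.Gamma (n : ℝ) := Real.Gamma_pos_of_pos (by linarith)
  have h4 : 0 < Real.Gamma (n + a / 2) := Real.Gamma_pos_of_pos (by linarith)
  have h5 : 0 < Real.Gamma (2 * s - 1 - n - a / 2) := Real.Gamma_pos_of_pos hs
  have h6 : 0 < Real.Gamma (2 * s - 1) := Real.Gamma_pos_of_pos (by linarith)
  have h7 := Real.pi_pos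
  positivity

theorem pf_UCL (hGRU : T_GRU) (hJJI : T_JJI) (hCUT : T_CUT) (hSOB : T_SOB) : T_UCL := by
  intro n hn p hp1 hp2
  have hn' : (1 : ℝ) ≤ n := by exact_mod_cast hn
  have hp : 1 < p := by linarith
  have hpQ : p < 2 * n + 2 := by linarith
  have hd : (0 : ℝ) < 2 * n + 2 - p := by linarith
  have hq : 0 < ps n p := by
    unfold ps
    positivity
  have hnq : (n : ℝ) + 1 < n * ps n p := by
    unfold ps
    rw [mul_div_assoc', lt_div_iff₀ hd]
    have h1 : 2 * (n : ℝ) + 2 - p < 2 * n * p := by nlinarith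
    have h2 := mul_lt_mul_of_pos_left h1 (by linarith : (0 : ℝ) < n + 1)
    linarith
  have hs1 : 0 < 2 * ((n : ℝ) * ps n p / 2) - 1 - n - 0 / 2 := by linarith
  have hs2 : 0 < 2 * (((n : ℝ) + 1) * p / 2) - 1 - n - p / 2 := by nlinarith
  obtain ⟨i1, e1⟩ := hJJI n 0 (n * ps n p / 2) hn le_rfl hs1
  obtain ⟨i2, e2⟩ := hJJI n p ((n + 1) * p / 2) hn (by linarith) hs2
  have hsm : ContDiff ℝ ∞ (u0 n) := (hGRU n 0).1
  -- the integrands
  have f1 : ∀ z : H n, |u0 n z| ^ ps n p = mz z ^ (0 : ℝ) * ww z ^ (-((n : ℝ) * ps n p / 2)) := by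
    intro z
    have hw := ucl_ww_pos z
    rw [Real.rpow_zero, one_mul]
    unfold u0
    rw [abs_of_pos (Real.rpow_pos_of_pos hw _), ← Real.rpow_mul hw.le]
    congr 1
    ring
  have f2 : ∀ z : H n, ‖hg (u0 n) z‖ ^ p =
      (2 * n) ^ p * (mz z ^ p * ww z ^ (-(((n : ℝ) + 1) * p / 2))) := by
    intro z
    have hw := ucl_ww_pos z
    have hm := mz_nonneg z
    rw [(hGRU n z).2, Real.mul_rpow (by positivity) (Real.rpow_nonneg hw.le _),
      Real.mul_rpow (by positivity) hm, ← Real.rpow_mul hw.le, mul_assoc]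
    congr 3
    ring
  have m1 : MemLp (u0 n) (ENNReal.ofReal (ps n p)) := by
    rw [← integrable_norm_rpow_iff hsm.continuous.aestronglyMeasurable
      (by simpa using hq) ENNReal.ofReal_ne_top, ENNReal.toReal_ofReal hq.le]
    refine i1.congr (Eventually.of_forall fun z => ?_)
    simp only [Real.norm_eq_abs]
    exact (f1 z).symm
  have m2 : MemLp (hg (u0 n)) (ENNReal.ofReal p) := by
    rw [← integrable_norm_rpow_iff (ucl_hg_cont _ hsm).aestronglyMeasurable
      (by simp; linarith) ENNReal.ofReal_ne_top, ENNReal.toReal_ofReal (by linarith)]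
    refine (i2.const_mul ((2 * n) ^ p)).congr (Eventually.of_forall fun z => ?_)
    exact (f2 z).symm
  have hcl : Cl p (u0 n) (hg (u0 n)) := hCUT n hn p hp hpQ _ hsm m1 m2
  have hms : ms (ps n p) (u0 n) = JJ n 0 (n * ps n p / 2) := by
    rw [← e1]
    exact integral_congr_ae (Eventually.of_forall f1)
  have hen : en p (hg (u0 n)) = (2 * n) ^ p * JJ n p ((n + 1) * p / 2) := by
    rw [← e2, ← integral_const_mul]
    exact integral_congr_ae (Eventually.of_forall f2)
  have hJ1 := JJ_pos hn 0 _ le_rfl hs1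
  have hJ2 := JJ_pos hn p _ (by linarith) hs2
  have h2n : (0 : ℝ) < (2 * n) ^ p := Real.rpow_pos_of_pos (by linarith) _
  have hmsp : 0 < ms (ps n p) (u0 n) := by rw [hms]; exact hJ1
  have henp : 0 < en p (hg (u0 n)) := by rw [hen]; positivity
  have hR : Rq n p = (KK n p)⁻¹ := by
    unfold Rq KK
    rw [inv_div, hms, hen]
    rfl
  have hK : 0 < KK n p := by
    unfold KK
    exact div_pos (Real.rpow_pos_of_pos hJ1 _) (by positivity)
  refine ⟨hcl, hmsp, henp, hR, hK, fun S hS => ?_⟩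
  have h1 := hSOB n hn p S hp hpQ hS _ _ hcl
  unfold Rq
  rw [le_div_iff₀ (Real.rpow_pos_of_pos hmsp _)]
  exact h1

end Pool.Agent.H11.HB
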